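import Pool.Agent.X252.FG

/-!
# Bloch's conjecture for correspondences on surfaces with a finite group of automorphisms

Let the finite group `G` act on the surface `X`. For a correspondence `Γ` of `X` the conjecture says
that `Γ` acts as zero on the kernel of the Albanese map if `[Γ]^{2,0} = 0`; over `ℂ` the condition
means that `Γ` is homologically equivalent to a degenerate correspondence (Lefschetz), and the
conclusion that `Γ` is degenerate, a sum of compositions `X → Y → X` through curves (Bloch and
Srinivas), with rational coefficients. For subgroups `D`, `D'` of `G` the correspondences from (a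
resolution of) `X / D` to (a resolution of) `X / D'` are, by pull-back to `X × X` and modulo
degenerate ones, the sums of the `h ∘ Γ ∘ g`, `g ∈ D`, `h ∈ D'`.

**The conjecture for all correspondences on `X` and the quotients of `X`.**
* If `c` is an involution in a nonabelian simple subgroup of `G`, then the conjecture for all
  correspondences on `X` is equivalent to the conjecture for all correspondences on `X / c`.
* If `c` is any involution in `G`, it is equivalent to the conjecture for all correspondences between
  the surfaces `X / c` and `X / [G, c]`.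
* More generally it is equivalent to the conjecture for all correspondences between the surfaces
  `X / D_j` if every nonzero irreducible rational representation of `G` has for some `j` a nonzero
  vector fixed by `D_j`; for instance if the `D_j` are the at least two parts of a partition of a
  subgroup of `G`.
* If it fails for `X` but holds for all correspondences between the quotients of `X` by subgroups of
  prime order, then `G` has a fixed point free irreducible representation (`G` is a Frobenius
  complement), the subgroups of order `p q` and the commutative subgroups of `G` are cyclic and `G`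
  has at most one involution.

**One correspondence.** Let `Γ` be any self-correspondence of `X`, and let `q_H : X → X / H` be the
quotient map. The composition `q_H ∘ Γ` is degenerate if and only if `∑_{h ∈ H} h ∘ Γ` is.
* If every irreducible rational representation of `G` which has a nonzero vector fixed by `H` has for
  some `j` a nonzero vector fixed by `D_j`, and all `q_{D_j} ∘ a ∘ Γ`, `a ∈ G`, are degenerate, then
  all `q_H ∘ a ∘ Γ` are degenerate (`H = 1` gives `Γ`).
* If a subgroup is partitioned into at least two subgroups `D_j`, then `Γ` is degenerate if and only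
  if all `q_{D_j} ∘ Γ` are.
* If `Γ` is not degenerate but the compositions with the quotients by all subgroups of prime order
  are, then `G` is as above.

For `Γ = Δ_X` this is about surfaces with `p_g = 0`; here `p_g` is arbitrary.
-/

set_option autoImplicit false

open CategoryTheory AlgebraicGeometry

universe u v w

namespace Pool.Agent.Results.MP_31564d_ag.FiniteGroups

open Pool.Agent.H914 Pool.Agent.H914.VarClass Pool.Agent.H914.VarClass.Obj Pool.Agent.W492.BB
  Pool.Agent.W550.Corr Pool.Agent.TH133 Pool.Agent.Y152.AS Pool.Agent.X307.BV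
  Pool.Agent.X307.PG Pool.Agent.X328.PB Pool.Agent.X252.GA Pool.Agent.X252.GC Pool.Agent.X252.GV
  Pool.Agent.X310.Mu Pool.Agent.X252.FG

variable {k : Type u} [Field k] {𝒱 : VarClass k}

open Classical in
/-- The sum of the correspondences `h ∘ Γ`, `h ∈ H`, is degenerate: the composition of `Γ` with the
quotient map `X → X / H` is degenerate. -/
def PushDegenerate (C : TheoryData.{u, v, 0} 𝒱 ℚ) {X : 𝒱.Obj} {G : Type} [Group G] [Fintype G]
    (ρ : G →* Aut X) (Γ : C.A (X.prod X)) (H : Subgroup G) : Prop :=
  IsDegenerate C (∑ h : G with h ∈ H, C.comp Γ (C.graph (ρ h).hom))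

/-- The same for all correspondences `a ∘ Γ`, `a ∈ G`. -/
def AllPushDegenerate (C : TheoryData.{u, v, 0} 𝒱 ℚ) {X : 𝒱.Obj} {G : Type} [Group G] [Fintype G]
    (ρ : G →* Aut X) (Γ : C.A (X.prod X)) (H : Subgroup G) : Prop :=
  ∀ a : G, PushDegenerate C ρ (C.comp Γ (C.graph (ρ a).hom)) H

section
variable {C : TheoryData.{u, v, 0} 𝒱 ℚ} [hC : IsChowProj C]

lemma push_iff {X : 𝒱.Obj} (hX : X.dim = 2) {G : Type} [Group G] [Fintype G]
    (ρ : G →* Aut X) (Γ : C.A (X.prod X)) (H : Subgroup G) : PushDegenerate C ρ Γ H ↔
      nrm (rep X hX ρ) H (Submodule.Quotient.mk Γ) = 0 := by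
  classical
  unfold PushDegenerate nrm
  rw [← mk_eq_zero]
  have h1 : (Submodule.Quotient.mk (∑ h : G with h ∈ H, C.comp Γ (C.graph (ρ h).hom)) :
      C.A (X.prod X) ⧸ degenerate C X X) =
      ∑ h : G with h ∈ H, rep X hX ρ h (Submodule.Quotient.mk Γ) :=
    map_sum (degenerate C X X).mkQ _ _
  rw [h1]

lemma all_iff {X : 𝒱.Obj} (hX : X.dim = 2) {G : Type} [Group G] [Fintype G]
    (ρ : G →* Aut X) (Γ : C.A (X.prod X)) (H : Subgroup G) : AllPushDegenerate C ρ Γ H ↔
      ∀ a, nrm (rep X hX ρ) H (rep X hX ρ a (Submodule.Quotient.mk Γ)) = 0 :=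
  forall_congr' fun _ => push_iff hX ρ _ H

lemma one_corr (X : 𝒱.Obj) (hX : X.dim = 2) {G : Type} [Group G] [Fintype G] (ρ : G →* Aut X)
    (Γ : C.A (X.prod X)) :
    (∀ (H : Subgroup G) (ι : Type) (D : ι → Subgroup G), Dominated H D →
      (∀ j, AllPushDegenerate C ρ Γ (D j)) → AllPushDegenerate C ρ Γ H) ∧
    (∀ (ι : Type) (D : ι → Subgroup G) (K : Subgroup G), Partitions K D →
      (IsDegenerate C Γ ↔ ∀ j, PushDegenerate C ρ Γ (D j))) ∧
    (¬ IsDegenerate C Γ → (∀ P : Subgroup G, (Nat.card P).Prime → PushDegenerate C ρ Γ P) →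
      FixedPointFree G ∧ CyclicSubgroups G) := by
  obtain ⟨h1, h2, h3, h4, h5⟩ := Pool.Agent.X252.GV.main (rep X hX ρ)
    (Submodule.Quotient.mk Γ : C.A (X.prod X) ⧸ degenerate C X X)
  simp only [all_iff hX, push_iff hX, ← mk_eq_zero]
  refine ⟨fun H ι D hD => h1 H ι D fun S _ _ σ hσ _ => hD S σ hσ, h4, fun h0 hP => ?_⟩
  obtain ⟨⟨S, i1, i2, σ, hσ, -, hs, hf⟩, h6⟩ := h5 h0 hP
  exact ⟨⟨S, i1, i2, σ, hσ, hs, hf⟩, h6⟩

end

/-- **Theorem.** Bloch's conjecture for the correspondences on a surface and on its quotients by
the subgroups of a finite group of automorphisms. -/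
theorem result (C : TheoryData.{u, v, 0} 𝒱 ℚ) [IsChowProj C] {K : Type w} [Field K]
    (W : WeilTheoryData.{u, v, w} C K) [IsWeilProj W] (X : 𝒱.Obj) (hX : X.dim = 2)
    {G : Type} [Group G] [Fintype G] (ρ : G →* Aut X) :
    (∀ c : G, InSimple c → c ≠ 1 → c * c = 1 → (BlochFor W X ↔
      BlochBetween W ρ (Subgroup.zpowers c) (Subgroup.zpowers c))) ∧
    (∀ c : G, c * c = 1 → (BlochFor W X ↔ ∀ D D' : Subgroup G,
      (D = Subgroup.zpowers c ∨ D = comms c) → (D' = Subgroup.zpowers c ∨ D' = comms c) →
        BlochBetween W ρ D D')) ∧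
    (∀ (ι : Type) (D : ι → Subgroup G), Dominated (⊥ : Subgroup G) D →
      (BlochFor W X ↔ ∀ i j, BlochBetween W ρ (D i) (D j))) ∧
    (∀ (ι : Type) (D : ι → Subgroup G) (H : Subgroup G), Partitions H D →
      (BlochFor W X ↔ ∀ i j, BlochBetween W ρ (D i) (D j))) ∧
    (¬ BlochFor W X → (∀ P P' : Subgroup G, (Nat.card P).Prime → (Nat.card P').Prime →
      BlochBetween W ρ P P') → FixedPointFree G ∧ CyclicSubgroups G) ∧
    ∀ Γ : C.A (X.prod X),
      (∀ (H : Subgroup G) (ι : Type) (D : ι → Subgroup G), Dominated H D →
        (∀ j, AllPushDegenerate C ρ Γ (D j)) → AllPushDegenerate C ρ Γ H) ∧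
      (∀ (ι : Type) (D : ι → Subgroup G) (H : Subgroup G), Partitions H D →
        (IsDegenerate C Γ ↔ ∀ j, PushDegenerate C ρ Γ (D j))) ∧
      (¬ IsDegenerate C Γ → (∀ P : Subgroup G, (Nat.card P).Prime → PushDegenerate C ρ Γ P) →
        FixedPointFree G ∧ CyclicSubgroups G) := by
  refine ⟨?_, ?_, ?_, ?_, fun h0 h => structure_for hX ρ h0 h, one_corr X hX ρ⟩
  · rintro c ⟨S, hSs, hS, hcS⟩ hc1 hc
    rw [for_iff hX ρ (dominated_comms hc (comms_of_simple S hS hcS hc1) ⊥)]
    exact ⟨fun h => h () (), fun h _ _ => h⟩
  · intro c hc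
    rw [for_iff hX ρ (dominated_two hc ⊥)]
    constructor
    · intro h D D' hD hD'
      rcases hD with rfl | rfl <;> rcases hD' with rfl | rfl
      · exact h true true
      · exact h true false
      · exact h false true
      · exact h false false
    · intro h i j
      refine h _ _ ?_ ?_
      · cases i
        · exact Or.inr rfl
        · exact Or.inl rfl
      · cases j
        · exact Or.inr rfl
        · exact Or.inl rfl
  · exact fun ι D hD => for_iff hX ρ hD
  · rintro ι D H ⟨hf, hι, hle, hpart⟩
    exact for_iff hX ρ (dominated_partition D H hι hle hpart ⊥)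

end Pool.Agent.Results.MP_31564d_ag.FiniteGroups
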