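import Pool.Agent.X308.I.Main

/-!
# Bloch's conjecture for correspondences on surfaces and polynomial identities

`𝒱` is a class of smooth projective geometrically irreducible varieties over the field `k` closed
under products (for example all of them), `C` the Chow groups with rational coefficients (in the
form of their formal properties, `IsChowProj`), `H` a Weil cohomology theory (`IsWeilProj`),
`SurfaceProperties H` records two known facts: homologically trivial divisors on a product `X × Y`
are sums of pull-backs of divisors from `X` and from `Y` (with rational coefficients), and every
surface has a Chow-Kunneth decomposition as constructed by Murre; `HasSurfacesInProducts C` is a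
consequence of Bertini's theorem: there are smooth surfaces `U` in the product of any two surfaces
which are complete intersections.

For a surface `U` consider the correspondences `Γ ∈ CH^2(U × U)` which are homologically equivalent
to degenerate ones (`IsHomDegenerate`; over `ℂ` this is the condition `[Γ]_*^{2,0} = 0` of the
problem, by the theorem of Lefschetz on classes of type `(1, 1)`), and the algebra of their actions
`Γ_*` on the Albanese kernel of `U`. Bloch's conjecture Q1 says that these algebras are zero.

Theorem. For every `d` these are equivalent:
(1) the composition of any `d` such correspondences `S_0 → S_1 → ⋯ → S_d` between surfaces acts as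
zero on the Albanese kernel of `S_0`;
(2) `(Γ_*)^d = 0` on the Albanese kernel, for all such self-correspondences `Γ` of surfaces;
(3) there is a noncommutative polynomial `f`, with a monomial of degree `d` which has a nonzero
coefficient, such that for all surfaces `U` the identity `f = 0` holds for the actions on the
Albanese kernel of `U` of all such self-correspondences.

For `d = 1`, (1) and (2) are Bloch's conjecture, so Q1 holds for all surfaces if and only if the
algebras satisfy a common polynomial identity with a linear term. If they are all commutative or
anticommutative (`f = x y - y x`, `f = x y + y x`), then all products of two elements are zero. No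
finite-dimensionality is assumed.

Proof: in a surface `U` in `S_0 × ⋯ × S_d` the correspondences `Γ_i : S_{i-1} → S_i` become
elements `Δ_i` such that a product of some of the `Δ_i` in any order other than
`Δ_i Δ_{i+1} ⋯ Δ_j` is zero.
-/

set_option autoImplicit false

universe u v w

namespace Pool.Agent.Results.MP_31564d_ag.PolynomialIdentities

open Pool.Agent.H914 Pool.Agent.W492.BB Pool.Agent.TH133 Pool.Agent.X308.S Pool.Agent.X308.I

/-- All compositions of `d` homologically degenerate correspondences between surfaces act as zero
on the Albanese kernels if and only if all `d`-th powers of homologically degenerate
self-correspondences do, if and only if the actions of these satisfy for all surfaces some common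
polynomial identity in which a monomial of degree `d` occurs. -/
theorem result {k : Type u} [Field k] {𝒱 : VarClass k} (C : TheoryData.{u, v, 0} 𝒱 ℚ)
    [IsChowProj C] {K : Type w} [Field K] (H : WeilTheoryData.{u, v, w} C K) [IsWeilProj H]
    (hS : SurfaceProperties H) (hU : HasSurfacesInProducts C) (d : ℕ) :
    List.TFAE [CompositionsVanish H d, PowersVanish H d,
      ∃ (f : List ℕ →₀ ℚ) (w : List ℕ), w.length = d ∧ f w ≠ 0 ∧ SatisfyIdentity H f] :=
  identities hS hU d

end Pool.Agent.Results.MP_31564d_ag.PolynomialIdentities
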