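import Pool.Agent.X308.P.Corr

/-!
# Bloch's conjecture for correspondences on surfaces up to nilpotence, and products with curves

`𝒱` is a class of smooth projective geometrically irreducible varieties over the field `k` closed
under products (for example all of them), `C` the Chow groups with rational coefficients (in the
form of their formal properties, `IsChowProj`), `H` a Weil cohomology theory (`IsWeilProj`), and
`SurfaceProperties H` records two known facts: homologically trivial divisors on a product `X × Y`
are sums of pull-backs of divisors from `X` and from `Y` (with rational coefficients), and every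
surface has a Chow-Kunneth decomposition as constructed by Murre.

Let `Γ` be a self-correspondence of degree zero of the surface `S` which is homologically equivalent
to a degenerate one (`IsHomDegenerate`; over `ℂ` this is the condition `[Γ]_*^{2,0} = 0` of the
problem, by the theorem of Lefschetz on classes of type `(1, 1)`). Bloch's conjecture predicts that
`Γ` acts as zero on `ker (alb_S)`, and then `Γ` is degenerate (Bloch and Srinivas; `IsDegenerate`: a
sum of compositions `S → Y → S` through curves). Let `T` be any curve of positive genus.

`ProductsVanish C T Γ` says that `Γ_*(a) × c = 0` in `CH_0(S × T)` for all `a ∈ ker (alb_S)` and all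
zero-cycles `c` of degree zero on `T`, and the same for the transpose of `Γ` (in the form of Bloch
and Srinivas).

Theorem.
(1) If `ProductsVanish C T Γ` then `Γ^5` is degenerate and acts as zero on `ker (alb_S)`.
(2) `Γ` is nilpotent modulo degenerate correspondences if and only if `ProductsVanish C T (Γ^n)` for
some `n ≥ 1`.
(3) If `Γ` is idempotent modulo degenerate correspondences (for instance `Γ = (1/|G|) ∑ [g]` for a
finite group `G` of automorphisms of `S`, with `p_g (S/G) = 0`), then `Γ` is degenerate if and only
if `ProductsVanish C T Γ`.

No finite-dimensionality is assumed. For `Γ = Δ_S` (3) is the case of a surface with `p_g = 0`.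
-/

set_option autoImplicit false

open CategoryTheory AlgebraicGeometry

universe u v w

namespace Pool.Agent.Results.MP_31564d_ag.ProductsWithCurves

open Pool.Agent.H914 Pool.Agent.W492.BB Pool.Agent.TH133 Pool.Agent.X308.S Pool.Agent.X308.P

/-- A homologically degenerate self-correspondence `Γ` of a surface is nilpotent modulo degenerate
ones if and only if, for some power of `Γ`, the products `Γ^n_*(a) × c` on `S × T` vanish, `T` a
curve of positive genus. -/
theorem result {k : Type u} [Field k] {𝒱 : VarClass k} (C : TheoryData.{u, v, 0} 𝒱 ℚ)
    [IsChowProj C] {K : Type w} [Field K] (H : WeilTheoryData.{u, v, w} C K) [IsWeilProj H]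
    (hS : SurfaceProperties H) (S T : 𝒱.Obj) (hd : S.dim = 2) (hT : PositiveGenus C T)
    (Γ : C.A (S.prod S)) (hΓ : C.Deg 2 Γ) (hhom : IsHomDegenerate H Γ) :
    (ProductsVanish C T Γ → IsDegenerate C (cpow C Γ 5) ∧ KillsAlbKer C (cpow C Γ 5)) ∧
    ((∃ n, 1 ≤ n ∧ IsDegenerate C (cpow C Γ n)) ↔ ∃ n, 1 ≤ n ∧ ProductsVanish C T (cpow C Γ n)) ∧
    (IsIdempotentModDegenerate C Γ → (IsDegenerate C Γ ↔ ProductsVanish C T Γ)) :=
  correspondences_main hS hd hT hΓ hhom

end Pool.Agent.Results.MP_31564d_ag.ProductsWithCurves
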