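import Pool.Agent.X307.BV.Setup

/-!
# Bloch's conjecture for compositions of two correspondences on surfaces satisfying Voisin's conjecture
-/

open CategoryTheory AlgebraicGeometry

universe u v w

namespace Pool.Agent.Results.MP_31564d_ag.VoisinSquareZero

open Pool.Agent.H914 Pool.Agent.H914.VarClass Pool.Agent.H914.VarClass.Obj Pool.Agent.W492.BB
  Pool.Agent.W550.Corr Pool.Agent.TH133 Pool.Agent.Y152.AS Pool.Agent.X307.BV

/-- **Theorem.** Let `X` be a surface such that:
* `X` satisfies Voisin's conjecture: `α × β = β × α` in `CH_0(X × X)_ℚ` for all `α, β` in the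
  Albanese kernel (in the form `SatisfiesVoisin`);
* some antisymmetric correspondence `Y - ᵗY` is injective on the Albanese kernel (for example
  `Y - ᵗY = γ - γ⁻¹` for an automorphism `γ` of a K3 surface such that `γ ^ 2` is not symplectic).
If `Z` and `W` are any self-correspondences of `X` which are homologically equivalent to degenerate
ones (over `ℂ`: which act as zero on `H^{2,0}(X)`), then the composition of `Z` and `W` acts as zero
on the Albanese kernel. -/
theorem result {k : Type u} [Field k] {𝒱 : VarClass k} {C : TheoryData.{u, v, 0} 𝒱 ℚ}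
    [IsChowProj C] {K : Type w} [Field K] (H : WeilTheoryData.{u, v, w} C K) [IsWeilProj H]
    (hPic : PicardRigid H) (X : 𝒱.Obj) (hX : X.dim = 2) (hV : SatisfiesVoisin H X)
    (Y : C.A (X.prod X)) (hY : C.Deg 2 Y) (hinj : InjectiveOnAlbKer (antisym C Y))
    (Z W : C.A (X.prod X)) (hZ : C.Deg 2 Z) (hW : C.Deg 2 W) (hZd : IsHomDegenerate H Z)
    (hWd : IsHomDegenerate H W) : KillsAlbKer C (C.comp Z W) := by
  intro α hα
  rw [C.act_comp]
  exact sq_zero hPic hX hV (Y := Y) hY (fun α hα => hinj α (inAlbKer_iff.2 hα)) hZ hZd.homDeg hW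
    hWd.homDeg (inAlbKer_iff.1 hα)

end Pool.Agent.Results.MP_31564d_ag.VoisinSquareZero
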